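import Mathlib
import Pool.Agent.H434R2.ElevenA

/-!
# MP_550cbf_nt, Q1: `n (2n+1) C(2n,n)` divides `∑_{k<n} (11k+3) C(2k,k)² C(3k,k) 64^(n-1-k)` for `n ≥ 2`

Write `n = M + 1`, `t_j = C(2M+1+j, M) C(2j,j) 4^(M-j)` and `U = ∑_{j ≤ M} t_j`.

* The WZ identity of `Pool.Agent.H434R2.ElevenA` gives `2 S = 3 (M+1) C(2M+2, M+1) U`.
* The telescoping identity
  `t_j ((2M+3)(j+1) - 1) = Δ_j (2 j (M+1+j) t_j)` gives
  `U = (2M+3) ∑_{j ≤ M} (j+1) t_j - (M+1)² C(3M+2, M) C(2M+2, M+1)`,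
  and `3 (M+1) C(3M+2, M) = (2M+3) C(3M+3, 2M+3)`, so `2M+3` divides `3 U`.
* `U` is even for `M ≥ 1`.
-/

set_option autoImplicit false

open Finset

namespace Pool.Agent.Results.MP_550cbf_nt.Divisibility

open Pool.Agent.H434R2.Eleven

/-- the sum of the problem -/
def S (n : ℕ) : ℕ :=
  ∑ k ∈ range n, (11 * k + 3) * (2 * k).choose k ^ 2 * (3 * k).choose k * 64 ^ (n - 1 - k)

/-- the terms `t_j` (for `j ≤ M`) -/
def t (M j : ℕ) : ℕ := (2 * M + 1 + j).choose M * (2 * j).choose j * 4 ^ (M - j)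

/-- the rational version of `t_j`, divided by `4 ^ M` -/
noncomputable def tq (M j : ℕ) : ℚ :=
  ((2 * M + 1 + j).choose M : ℚ) * ((2 * j).choose j : ℚ) / 4 ^ j

lemma t_cast (M j : ℕ) (hj : j ≤ M) : (t M j : ℚ) = 4 ^ M * tq M j := by
  unfold t tq
  push_cast
  have : (4 : ℚ) ^ M = 4 ^ (M - j) * 4 ^ j := by rw [← pow_add]; congr 1; omega
  rw [this]
  field_simp

lemma tq_succ (M j : ℕ) : 2 * ((j : ℚ) + 1) * (M + 2 + j) * tq M (j + 1)
    = (2 * M + 2 + j) * (2 * j + 1) * tq M j := by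
  unfold tq
  have hk1 := K_succ_right M j
  have hj := cb_succ j
  have hMj : ((M : ℚ) + 2 + j) ≠ 0 := by positivity
  have hj1 : ((j : ℚ) + 1) ≠ 0 := by positivity
  have hj' : ((2 * (j + 1)).choose (j + 1) : ℚ) = 2 * (2 * j + 1) * ((2 * j).choose j : ℚ) / (j + 1) := by
    rw [eq_div_iff hj1]; linarith
  have hk1' : ((2 * M + 1 + (j + 1)).choose M : ℚ) =
      ((2 * M + 1 + j).choose M : ℚ) * (2 * M + 2 + j) / (M + 2 + j) := by
    rw [eq_div_iff hMj]; linarith
  rw [hj', hk1']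
  field_simp
  ring

lemma telescope (M J : ℕ) : ∑ j ∈ range J, tq M j * ((2 * M + 3) * (j + 1) - 1)
    = 2 * J * (M + 1 + J) * tq M J := by
  induction J with
  | zero => simp
  | succ J ih =>
    rw [sum_range_succ, ih]
    have h := tq_succ M J
    push_cast
    linear_combination -h

lemma S_eq (M : ℕ) : 2 * S (M + 1) = 3 * (M + 1) * (2 * (M + 1)).choose (M + 1) *
    ∑ j ∈ range (M + 1), t M j := by
  have h := wz M
  have h1 : (S (M + 1) : ℚ) = 64 ^ M * ∑ k ∈ range (M + 1), (11 * (k : ℚ) + 3) * tt k := by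
    unfold S
    push_cast
    rw [mul_sum]
    apply sum_congr rfl
    intro k hk
    have hk' : k ≤ M := by have := mem_range.mp hk; omega

    have e : (64 : ℚ) ^ M = 64 ^ (M - k) * 64 ^ k := by rw [← pow_add]; congr 1; omega
    rw [e]
    unfold tt
    field_simp
  have h2 : (2 : ℚ) * (S (M + 1) : ℚ) = 3 * (M + 1) * ((2 * (M + 1)).choose (M + 1) : ℚ) *
      ∑ j ∈ range (M + 1), (t M j : ℚ) := by
    rw [h1, h, mul_sum, mul_sum, mul_sum]
    apply sum_congr rfl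
    intro j hj
    have hj' : j ≤ M := by have := mem_range.mp hj; omega
    rw [t_cast M j hj']
    unfold FF tq
    have e : (64 : ℚ) ^ M = 16 ^ M * 4 ^ M := by rw [← mul_pow]; norm_num
    rw [e, pow_succ]
    field_simp
    ring
  exact_mod_cast h2

/-- the number `3 C(3M+2, M)` is `C(3M+3, M+1)` -/
lemma three_choose (M : ℕ) : 3 * (3 * M + 2).choose M = (3 * M + 3).choose (M + 1) := by
  have h1 := Nat.add_one_mul_choose_eq (3 * M + 2) M
  have h2 : (M + 1) * (3 * (3 * M + 2).choose M) = (M + 1) * (3 * M + 3).choose (M + 1) := by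
    have e : 3 * M + 2 + 1 = 3 * M + 3 := rfl
    rw [e] at h1
    linarith
  exact Nat.eq_of_mul_eq_mul_left (Nat.succ_pos M) h2

lemma choose_mul (M : ℕ) : (M + 1) * (3 * M + 3).choose (M + 1) =
    (2 * M + 3) * (3 * M + 3).choose (2 * M + 3) := by
  have h := Nat.choose_succ_right_eq (3 * M + 3) (2 * M + 2)
  have e : 3 * M + 3 - (2 * M + 2) = M + 1 := by omega
  rw [e] at h
  have h2 : (3 * M + 3).choose (M + 1) = (3 * M + 3).choose (2 * M + 2) :=
    Nat.choose_symm_of_eq_add (by omega)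
  rw [h2]
  linarith

lemma U_eq (M : ℕ) : 3 * ∑ j ∈ range (M + 1), t M j +
      (2 * M + 3) * ((M + 1) * (3 * M + 3).choose (2 * M + 3) * (2 * (M + 1)).choose (M + 1)) =
    (2 * M + 3) * (3 * ∑ j ∈ range (M + 1), (j + 1) * t M j) := by
  have h := telescope M (M + 1)
  have hU : (∑ j ∈ range (M + 1), (t M j : ℚ)) = 4 ^ M * ∑ j ∈ range (M + 1), tq M j := by
    rw [mul_sum]
    apply sum_congr rfl
    intro j hj
    exact t_cast M j (by have := mem_range.mp hj; omega)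
  have hV : (∑ j ∈ range (M + 1), ((j : ℚ) + 1) * (t M j : ℚ)) =
      4 ^ M * ∑ j ∈ range (M + 1), tq M j * (j + 1) := by
    rw [mul_sum]
    apply sum_congr rfl
    intro j hj
    rw [t_cast M j (by have := mem_range.mp hj; omega)]
    ring
  have hs : ∑ j ∈ range (M + 1), tq M j * ((2 * M + 3) * ((j : ℚ) + 1) - 1) =
      (2 * M + 3) * ∑ j ∈ range (M + 1), tq M j * ((j : ℚ) + 1) - ∑ j ∈ range (M + 1), tq M j := by
    rw [mul_sum, ← sum_sub_distrib]
    apply sum_congr rfl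
    intro j _
    ring
  rw [hs] at h
  have hb : tq M (M + 1) = ((3 * M + 2).choose M : ℚ) * ((2 * (M + 1)).choose (M + 1) : ℚ) / 4 ^ (M + 1) := by
    unfold tq
    have e : 2 * M + 1 + (M + 1) = 3 * M + 2 := by ring
    rw [e]
  have h3 : (3 : ℚ) * ((3 * M + 2).choose M : ℚ) = ((3 * M + 3).choose (M + 1) : ℚ) := by
    exact_mod_cast three_choose M
  have h4 : ((M : ℚ) + 1) * ((3 * M + 3).choose (M + 1) : ℚ) =
      (2 * M + 3) * ((3 * M + 3).choose (2 * M + 3) : ℚ) := by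
    exact_mod_cast choose_mul M
  have key : (3 : ℚ) * (∑ j ∈ range (M + 1), (t M j : ℚ)) +
      (2 * M + 3) * ((M + 1) * ((3 * M + 3).choose (2 * M + 3) : ℚ) *
        ((2 * (M + 1)).choose (M + 1) : ℚ)) =
      (2 * M + 3) * (3 * ∑ j ∈ range (M + 1), ((j : ℚ) + 1) * (t M j : ℚ)) := by
    rw [hU, hV]
    rw [hb] at h
    have h5 : (4 : ℚ) ^ M * (2 * ((M + 1 : ℕ) : ℚ) * (M + 1 + ((M + 1 : ℕ) : ℚ)) *
        (((3 * M + 2).choose M : ℚ) * ((2 * (M + 1)).choose (M + 1) : ℚ) / 4 ^ (M + 1))) =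
        (M + 1) ^ 2 * ((3 * M + 2).choose M : ℚ) * ((2 * (M + 1)).choose (M + 1) : ℚ) := by
      push_cast
      rw [pow_succ]
      field_simp
      ring
    rw [← h] at h5
    generalize (∑ j ∈ range (M + 1), tq M j) = a at *
    generalize (∑ j ∈ range (M + 1), tq M j * ((j : ℚ) + 1)) = b at *
    generalize ((2 * (M + 1)).choose (M + 1) : ℚ) = c at *
    generalize ((3 * M + 2).choose M : ℚ) = d at *
    generalize ((3 * M + 3).choose (M + 1) : ℚ) = e at *
    generalize ((3 * M + 3).choose (2 * M + 3) : ℚ) = f at *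
    subst h3
    linear_combination (-3) * h5 - (M + 1) * c * h4
  exact_mod_cast key

lemma two_dvd_t (M j : ℕ) (hM : 1 ≤ M) (hj : j ≤ M) : 2 ∣ t M j := by
  unfold t
  rcases Nat.lt_or_ge j M with h | h
  · apply Dvd.dvd.mul_left
    apply dvd_pow (by norm_num)
    omega
  · have : j = M := le_antisymm hj h
    subst this
    apply Dvd.dvd.mul_right
    apply Dvd.dvd.mul_left
    rw [← Nat.centralBinom_eq_two_mul_choose]
    exact Nat.two_dvd_centralBinom_of_one_le hM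

/-- **Full answer to Q1**: for every `n ≥ 2` the number `n (2n+1) C(2n,n)` divides
`∑_{k<n} (11k+3) C(2k,k)² C(3k,k) 64^(n-1-k)`; equivalently, the rational number `a_n` of the problem
is an integer. -/
theorem result (n : ℕ) (hn : 2 ≤ n) :
    (n * (2 * n + 1) * (2 * n).choose n ∣
      ∑ k ∈ range n, (11 * k + 3) * (2 * k).choose k ^ 2 * (3 * k).choose k * 64 ^ (n - 1 - k)) ∧
    ∃ z : ℤ, (z : ℚ) = 1 / ((n : ℚ) * (2 * n + 1) * ((2 * n).choose n : ℚ)) *
      ∑ k ∈ range n, (11 * (k : ℚ) + 3) * ((2 * k).choose k : ℚ) ^ 2 * ((3 * k).choose k : ℚ) *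
        64 ^ (n - 1 - k) := by
  have main : n * (2 * n + 1) * (2 * n).choose n ∣ S n := by
    obtain ⟨M, rfl⟩ : ∃ M, n = M + 1 := ⟨n - 1, by omega⟩
    have hM : 1 ≤ M := by omega
    have h1 : (2 * M + 3) ∣ 3 * ∑ j ∈ range (M + 1), t M j := by
      have h := U_eq M
      have h2 : (2 * M + 3) ∣ 3 * ∑ j ∈ range (M + 1), t M j +
          (2 * M + 3) * ((M + 1) * (3 * M + 3).choose (2 * M + 3) * (2 * (M + 1)).choose (M + 1)) := by
        rw [h]
        exact Dvd.intro _ rfl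
      exact (Nat.dvd_add_left (Dvd.intro _ rfl)).mp h2
    have h2 : 2 ∣ 3 * ∑ j ∈ range (M + 1), t M j := by
      apply Dvd.dvd.mul_left
      apply dvd_sum
      intro j hj
      exact two_dvd_t M j hM (by have := mem_range.mp hj; omega)
    have hcop : Nat.Coprime 2 (2 * M + 3) := by
      rw [Nat.coprime_two_left]
      exact ⟨M + 1, by ring⟩
    obtain ⟨W, hW⟩ := hcop.mul_dvd_of_dvd_of_dvd h2 h1
    have h3 := S_eq M
    refine ⟨W, ?_⟩
    have h4 : 2 * S (M + 1) = 2 * ((M + 1) * (2 * (M + 1) + 1) * (2 * (M + 1)).choose (M + 1) * W) := by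
      rw [h3]
      calc 3 * (M + 1) * (2 * (M + 1)).choose (M + 1) * ∑ j ∈ range (M + 1), t M j
          = (M + 1) * (2 * (M + 1)).choose (M + 1) * (3 * ∑ j ∈ range (M + 1), t M j) := by ring
        _ = (M + 1) * (2 * (M + 1)).choose (M + 1) * (2 * (2 * M + 3) * W) := by rw [hW]
        _ = _ := by ring
    exact Nat.eq_of_mul_eq_mul_left (by norm_num) h4
  refine ⟨main, ?_⟩
  obtain ⟨W, hW⟩ := main
  refine ⟨W, ?_⟩
  have hq : (S n : ℚ) = ((n * (2 * n + 1) * (2 * n).choose n * W : ℕ) : ℚ) := by rw [hW]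
  have hS : (S n : ℚ) = ∑ k ∈ range n, (11 * (k : ℚ) + 3) * ((2 * k).choose k : ℚ) ^ 2 *
      ((3 * k).choose k : ℚ) * 64 ^ (n - 1 - k) := by
    unfold S
    push_cast
    rfl
  rw [← hS, hq]
  have hn0 : (n : ℚ) ≠ 0 := by
    have : n ≠ 0 := by omega
    exact_mod_cast this
  have hc : ((2 * n).choose n : ℚ) ≠ 0 := by
    have : (2 * n).choose n ≠ 0 := (Nat.choose_pos (by omega)).ne'
    exact_mod_cast this
  have h2 : (2 * (n : ℚ) + 1) ≠ 0 := by positivity
  push_cast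
  field_simp

end Pool.Agent.Results.MP_550cbf_nt.Divisibility
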